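import Pool.Agent.helper3.DP.SpecG1
import Pool.Agent.helper61.DP.Base

/-!
# GSC: squares are crossed with probability at least one half
-/

namespace DP

open MeasureTheory

/-- The bijection of the sites which exchanges primal and dual sites (and the two directions). -/
def GSC_phi : V ≃ V where
  toFun v := (v.2 - 1, v.1 - 1)
  invFun v := (v.2 + 1, v.1 + 1)
  left_inv v := by simp
  right_inv v := by simp

theorem GSC_col (b : V → Bool) (v : V) :
    col (fun w => !(b (GSC_phi w))) v = !(col b (GSC_phi v)) := by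
  obtain ⟨i, j⟩ := v
  simp only [col, GSC_phi, Equiv.coe_fn_mk]
  by_cases h1 : i % 2 = 0 ∧ j % 2 = 0
  · have h2 : ¬ ((j - 1) % 2 = 0 ∧ (i - 1) % 2 = 0) := by omega
    have h3 : (j - 1) % 2 = 1 ∧ (i - 1) % 2 = 1 := by omega
    rw [if_pos h1, if_neg h2, if_pos h3]
    rfl
  · by_cases h4 : i % 2 = 1 ∧ j % 2 = 1
    · have h2 : (j - 1) % 2 = 0 ∧ (i - 1) % 2 = 0 := by omega
      rw [if_neg h1, if_pos h4, if_pos h2]
      rfl
    · have h2 : ¬ ((j - 1) % 2 = 0 ∧ (i - 1) % 2 = 0) := by omega
      have h3 : ¬ ((j - 1) % 2 = 1 ∧ (i - 1) % 2 = 1) := by omega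
      rw [if_neg h1, if_neg h4, if_neg h2, if_neg h3]

/-- The image of a white connection is a black connection. -/
theorem GSC_conn (b : V → Bool) (n : ℕ) (u v : V)
    (h : Conn (col b) false (rect (-(n : ℤ)) n (-(n : ℤ)) n) u v) :
    Conn (col fun w => !(b (GSC_phi w))) true (rect (1 - (n : ℤ)) (n + 1) (1 - (n : ℤ)) (n + 1))
      (GSC_phi.symm u) (GSC_phi.symm v) := by
  have hmem : ∀ w : V, w ∈ {w | w ∈ rect (-(n : ℤ)) n (-(n : ℤ)) n ∧ col b w = false} →
      GSC_phi.symm w ∈ {w | w ∈ rect (1 - (n : ℤ)) (n + 1) (1 - (n : ℤ)) (n + 1) ∧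
        col (fun w => !(b (GSC_phi w))) w = true} := by
    intro w hw
    obtain ⟨hw1, hw2⟩ := hw
    refine ⟨?_, ?_⟩
    · simp only [rect, Set.mem_ofPred_eq, GSC_phi, Equiv.coe_fn_symm_mk] at hw1 ⊢
      omega
    · rw [GSC_col, Equiv.apply_symm_apply, hw2]
      rfl
  refine Con.induct' h (fun z => Conn (col fun w => !(b (GSC_phi w))) true
    (rect (1 - (n : ℤ)) (n + 1) (1 - (n : ℤ)) (n + 1)) (GSC_phi.symm u) (GSC_phi.symm z))
    (Con.refl (hmem u h.1)) ?_
  intro a b' _ hb hab hP
  refine Con.step hP ?_ (hmem b' hb)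
  rw [adj_iff] at hab ⊢
  simp only [GSC_phi, Equiv.coe_fn_symm_mk]
  omega

/-- Dead ends: a black crossing of the odd square gives one of the even square. -/
theorem GSC_det (b : V → Bool) (n : ℕ) (hn : Even n)
    (h : hcross (col b) true (1 - (n : ℤ)) (n + 1) (1 - (n : ℤ)) (n + 1)) :
    hcross (col b) true (-(n : ℤ)) n (-(n : ℤ)) n := by
  obtain ⟨u, v, hu1, hv1, h⟩ := h
  have hn2 : (n : ℤ) % 2 = 0 := by
    obtain ⟨r, hr⟩ := hn
    omega
  have hodd : ∀ w : V, col b w = true → ¬ (w.1 % 2 = 1 ∧ w.2 % 2 = 1) := by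
    intro w hw hw2
    unfold col at hw
    rw [if_neg (by omega), if_pos hw2] at hw
    exact absurd hw (by decide)
  have heven : ∀ w : V, w.1 % 2 = 0 ∧ w.2 % 2 = 0 → col b w = true := by
    intro w hw
    unfold col
    rw [if_pos hw]
  have hu := h.1
  obtain ⟨hur, huc⟩ := hu
  have huo := hodd u huc
  simp only [rect, Set.mem_ofPred_eq] at hur
  have hu2 : u.2 % 2 = 0 := by omega
  have hn1 : 1 ≤ (n : ℤ) := by omega
  set W : Set V := {w | w ∈ rect (-(n : ℤ)) n (-(n : ℤ)) n ∧ col b w = true} with hW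
  have hW' : ∀ w : V, w ∈ W ↔ (-(n : ℤ) ≤ w.1 ∧ w.1 ≤ n ∧ -(n : ℤ) ≤ w.2 ∧ w.2 ≤ n) ∧
      col b w = true := by
    intro w
    rw [hW]
    simp only [rect, Set.mem_ofPred_eq]
  set u' : V := (-(n : ℤ), u.2) with hu'
  have hu'W : u' ∈ W := by
    rw [hW']
    refine ⟨?_, heven _ ?_⟩
    · rw [hu']
      dsimp only
      omega
    · rw [hu']
      dsimp only
      omega
  have key := Con.induct' h
    (fun z => (z.1 ≤ (n : ℤ) ∧ Con W u' (z.1, min z.2 n)) ∨ ∃ v' : V, v'.1 = (n : ℤ) ∧ Con W u' v')
    ?_ ?_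
  · rcases key with ⟨h1, -⟩ | ⟨v', hv', hcon⟩
    · exfalso
      omega
    · exact ⟨u', v', rfl, hv', hcon⟩
  · left
    refine ⟨by omega, ?_⟩
    refine Con.single hu'W ?_ ?_
    · rw [adj_iff, hu']
      dsimp only
      omega
    · rw [hW']
      have : ((u.1, min u.2 (n : ℤ)) : V) = u := by
        ext
        · rfl
        · dsimp only
          omega
      rw [this]
      refine ⟨?_, huc⟩
      omega
  · intro a a' ha ha' hab hP
    rcases hP with ⟨h1, hcon⟩ | h2
    · obtain ⟨har, hac⟩ := ha
      obtain ⟨har', hac'⟩ := ha'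
      simp only [rect, Set.mem_ofPred_eq] at har har'
      have ho := hodd a hac
      have ho' := hodd a' hac'
      rw [adj_iff] at hab
      by_cases hb : a'.1 ≤ (n : ℤ)
      · left
        refine ⟨hb, ?_⟩
        by_cases ha2 : a.2 ≤ (n : ℤ)
        · by_cases hb2 : a'.2 ≤ (n : ℤ)
          · have e1 : ((a.1, min a.2 (n : ℤ)) : V) = a := by
              ext
              · rfl
              · dsimp only
                omega
            have e2 : ((a'.1, min a'.2 (n : ℤ)) : V) = a' := by
              ext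
              · rfl
              · dsimp only
                omega
            rw [e1] at hcon
            rw [e2]
            refine Con.step hcon ?_ ?_
            · rw [adj_iff]
              exact hab
            · rw [hW']
              refine ⟨?_, hac'⟩
              omega
          · have e1 : ((a'.1, min a'.2 (n : ℤ)) : V) = (a.1, min a.2 (n : ℤ)) := by
              ext
              · dsimp only
                omega
              · dsimp only
                omega
            rw [e1]
            exact hcon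
        · have e1 : ((a'.1, min a'.2 (n : ℤ)) : V) = (a.1, min a.2 (n : ℤ)) := by
            ext
            · dsimp only
              omega
            · dsimp only
              omega
          rw [e1]
          exact hcon
      · right
        refine ⟨_, ?_, hcon⟩
        dsimp only
        omega
    · exact Or.inr h2

theorem GSC_finite (a b d e : ℤ) : (rect a b d e).Finite := by
  refine Set.Finite.subset (((Finset.Icc a b) ×ˢ (Finset.Icc d e) : Finset V).finite_toSet) ?_
  intro v hv
  simp only [rect, Set.mem_ofPred_eq] at hv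
  simp only [Finset.coe_product, Finset.coe_Icc, Set.mem_prod, Set.mem_Icc]
  omega

theorem GSC (hHX : HX_stmt) (hBf : Bflip_stmt) : GSC_stmt := by
  intro n hn
  haveI hP : IsProbabilityMeasure P1 := by
    unfold P1
    infer_instance
  set A : Set (V → Bool) := Ev fun c => hcross c true (-(n : ℤ)) n (-(n : ℤ)) n with hA
  set B : Set (V → Bool) := Ev fun c => vcross c false (-(n : ℤ)) n (-(n : ℤ)) n with hB
  set F : Set (V → Bool) :=
    Ev fun c => hcross c true (1 - (n : ℤ)) (n + 1) (1 - (n : ℤ)) (n + 1) with hF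
  have hloc : Loc F (rect (1 - (n : ℤ)) (n + 1) (1 - (n : ℤ)) (n + 1)) := by
    refine Loc.ev (GSC_finite _ _ _ _) fun c c' hc => ?_
    constructor
    · rintro ⟨u, v, hu, hv, h⟩
      exact ⟨u, v, hu, hv, (Conn.congr hc).1 h⟩
    · rintro ⟨u, v, hu, hv, h⟩
      exact ⟨u, v, hu, hv, (Conn.congr hc).2 h⟩
  have hflip := hBf GSC_phi F _ hloc
  have hBF : B ⊆ {b | (fun v => !(b (GSC_phi v))) ∈ F} := by
    intro b hb
    obtain ⟨u, v, hu, hv, h⟩ := hb
    refine ⟨_, _, ?_, ?_, GSC_conn b n u v h⟩
    · simp only [GSC_phi, Equiv.coe_fn_symm_mk]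
      omega
    · simp only [GSC_phi, Equiv.coe_fn_symm_mk]
      omega
  have hFA : F ⊆ A := fun b hb => GSC_det b n hn hb
  have h1 : Pr B ≤ Pr A := by
    calc Pr B ≤ Pr {b | (fun v => !(b (GSC_phi v))) ∈ F} :=
          measureReal_mono hBF (measure_ne_top P1 _)
      _ = Pr F := hflip
      _ ≤ Pr A := measureReal_mono hFA (measure_ne_top P1 _)
  have hun : A ∪ B = Set.univ := by
    refine Set.eq_univ_of_forall fun b => ?_
    have := hHX (col b) true (-(n : ℤ)) n (-(n : ℤ)) n (by omega) (by omega)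
    rcases this with h | h
    · exact Or.inl h
    · exact Or.inr h
  have h2 : (1 : ℝ) ≤ Pr A + Pr B := by
    have h3 : Pr (A ∪ B) = 1 := by
      rw [hun]
      unfold Pr
      exact probReal_univ
    rw [← h3]
    exact measureReal_union_le A B
  linarith

end DP
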