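import Pool.Agent.helper61.DP.SpecA

/-!
# TO: three points in order near a point of the outer circle
-/

namespace DP

/-- A ray from `z` straight away from `y` up to the circle `bd x n`. -/
theorem TO_ray (x y z : V) (n ρ : ℕ) (hz : sd x z ≤ n) (hyz : sd y z = ρ) (hρ : 1 ≤ ρ) :
    ∃ u : V, u ∈ bd x n ∧ ρ ≤ sd y u ∧ ∃ R : Set V, R ⊆ box x n ∧ Con R z u ∧
      ∀ w ∈ R, w = z ∨ ρ < sd y w := by
  obtain ⟨x1, x2⟩ := x
  obtain ⟨y1, y2⟩ := y
  obtain ⟨z1, z2⟩ := z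
  simp only [sd] at hz hyz
  have hcase : z1 = y1 + ρ ∨ z1 = y1 - ρ ∨ z2 = y2 + ρ ∨ z2 = y2 - ρ := by omega
  rcases hcase with h | h | h | h
  · refine ⟨(x1 + n, z2), ?_, ?_, {w | w.2 = z2 ∧ z1 ≤ w.1 ∧ w.1 ≤ x1 + n}, ?_, ?_, ?_⟩
    · simp only [bd, sd, Set.mem_ofPred_eq]
      omega
    · simp only [sd]
      omega
    · rintro ⟨w1, w2⟩ hw
      simp only [Set.mem_ofPred_eq] at hw
      simp only [box, sd, Set.mem_ofPred_eq]
      omega
    · exact con_horiz z2 z1 (x1 + n) (by omega) fun t h1 h2 => ⟨rfl, h1, h2⟩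
    · rintro ⟨w1, w2⟩ hw
      simp only [Set.mem_ofPred_eq] at hw
      simp only [sd, Prod.mk.injEq]
      omega
  · refine ⟨(x1 - n, z2), ?_, ?_, {w | w.2 = z2 ∧ w.1 ≤ z1 ∧ x1 - n ≤ w.1}, ?_, ?_, ?_⟩
    · simp only [bd, sd, Set.mem_ofPred_eq]
      omega
    · simp only [sd]
      omega
    · rintro ⟨w1, w2⟩ hw
      simp only [Set.mem_ofPred_eq] at hw
      simp only [box, sd, Set.mem_ofPred_eq]
      omega
    · exact Con.symm (con_horiz z2 (x1 - n) z1 (by omega) fun t h1 h2 => ⟨rfl, h2, h1⟩)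
    · rintro ⟨w1, w2⟩ hw
      simp only [Set.mem_ofPred_eq] at hw
      simp only [sd, Prod.mk.injEq]
      omega
  · refine ⟨(z1, x2 + n), ?_, ?_, {w | w.1 = z1 ∧ z2 ≤ w.2 ∧ w.2 ≤ x2 + n}, ?_, ?_, ?_⟩
    · simp only [bd, sd, Set.mem_ofPred_eq]
      omega
    · simp only [sd]
      omega
    · rintro ⟨w1, w2⟩ hw
      simp only [Set.mem_ofPred_eq] at hw
      simp only [box, sd, Set.mem_ofPred_eq]
      omega
    · exact con_vert z1 z2 (x2 + n) (by omega) fun t h1 h2 => ⟨rfl, h1, h2⟩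
    · rintro ⟨w1, w2⟩ hw
      simp only [Set.mem_ofPred_eq] at hw
      simp only [sd, Prod.mk.injEq]
      omega
  · refine ⟨(z1, x2 - n), ?_, ?_, {w | w.1 = z1 ∧ w.2 ≤ z2 ∧ x2 - n ≤ w.2}, ?_, ?_, ?_⟩
    · simp only [bd, sd, Set.mem_ofPred_eq]
      omega
    · simp only [sd]
      omega
    · rintro ⟨w1, w2⟩ hw
      simp only [Set.mem_ofPred_eq] at hw
      simp only [box, sd, Set.mem_ofPred_eq]
      omega
    · exact Con.symm (con_vert z1 (x2 - n) z2 (by omega) fun t h1 h2 => ⟨rfl, h2, h1⟩)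
    · rintro ⟨w1, w2⟩ hw
      simp only [Set.mem_ofPred_eq] at hw
      simp only [sd, Prod.mk.injEq]
      omega

theorem TO_arc_ends (x : V) (n : ℕ) (u v w : V) (h : onArc x n u v w) :
    onArc x n u v u ∧ onArc x n u v v := by
  obtain ⟨h1, h2, -, h4⟩ := h
  refine ⟨⟨h1, h2, h1, ?_⟩, ⟨h1, h2, h2, ?_⟩⟩
  · split_ifs with h5
    · exact ⟨le_rfl, h5⟩
    · exact Or.inl le_rfl
  · split_ifs with h5
    · exact ⟨h5, le_rfl⟩
    · exact Or.inr le_rfl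

theorem TO (hSI : SI_stmt) (hPO : PO_stmt) (hAC : AC_stmt) : TO_stmt := by
  intro c k x n y ρ hx hy hρ hρn u₁ u₂ u₃ z harc hnear hc1 hc2 hc3 hz hcon h
  have hn : 1 ≤ n := hρ.trans hρn
  have hzW := Conn.mem_right hcon
  have hzc : c z = !k := Conn.colour_right hcon
  have hzx : sd x z ≤ n := hzW.1
  obtain ⟨u₄, hu4, hu4y, R, hRb, hRcon, hR⟩ := TO_ray x y z n ρ hzx hz hρ
  have harc' := harc
  obtain ⟨hb1, hb3, hb2, hpos⟩ := harc'
  obtain ⟨ha1, ha3⟩ := TO_arc_ends x n u₁ u₃ u₂ harc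
  have hd1 := hnear _ ha1
  have hd2 := hnear _ harc
  have hd3 := hnear _ ha3
  have hkk : k ≠ !k := by cases k <;> decide
  have h12 : u₁ ≠ u₂ := by
    rintro rfl
    exact hkk (hc1.symm.trans hc2)
  have h23 : u₂ ≠ u₃ := by
    rintro rfl
    exact hkk (hc3.symm.trans hc2)
  have h13 : u₁ ≠ u₃ := by
    rintro rfl
    rw [if_pos le_rfl] at hpos
    exact h12 (hPO.2.1 x n u₁ u₂ hn hb1 hb2 (le_antisymm hpos.1 hpos.2))
  have h14 : u₁ ≠ u₄ := by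
    rintro rfl
    omega
  have h24 : u₂ ≠ u₄ := by
    rintro rfl
    omega
  have h34 : u₃ ≠ u₄ := by
    rintro rfl
    omega
  have harc4 : onArc x n u₃ u₁ u₄ := by
    rcases hAC.1 x n u₁ u₃ u₄ hn hb1 hb3 hu4 h13 with h5 | h5
    · have := hnear _ h5
      omega
    · exact h5
  have halt : alt x n u₁ u₂ u₃ u₄ := by
    refine ⟨⟨hb1, hb2, hb3, hu4⟩, ?_, Or.inl ⟨harc, harc4⟩⟩
    simp only [List.nodup_cons, List.mem_cons, List.not_mem_nil, or_false, not_or,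
      List.nodup_nil, and_true, not_false_eq_true]
    exact ⟨⟨h12, h13, h14⟩, ⟨h23, h24⟩, h34⟩
  have hcon1 : Con ({w | w ∈ box x n ∩ box y ρ ∧ c w = !k} ∪ R) u₂ u₄ :=
    (Con.mono Set.subset_union_left hcon).trans (Con.mono Set.subset_union_right hRcon)
  obtain ⟨w, hw1, hw2⟩ := hSI x n u₁ u₂ u₃ u₄ {w | w ∈ box x n ∩ box y ρ ∧ c w = k}
    ({w | w ∈ box x n ∩ box y ρ ∧ c w = !k} ∪ R) hx hn halt (fun w hw => hw.1.1)
    (Set.union_subset (fun w hw => hw.1.1) hRb) h hcon1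
  rcases hw2 with hw2 | hw2
  · exact hkk (hw1.2.symm.trans hw2.2)
  · rcases hR w hw2 with rfl | hw3
    · exact hkk (hw1.2.symm.trans hzc)
    · have hw4 : sd y w ≤ ρ := hw1.1.2
      omega

end DP
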